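import Pool.Agent.Q72.FB.Bog

/-!
# Campana's analytic conjecture for highly ramified fibrations over pairs of log general type

Let `Y` be a projective variety of dimension `d > 0`, and let `D` be the union of the divisors of
`n + 1` forms `f i` of the same degree without a common zero on `Y` (for instance `Y` is projective
space and `D` is a union of hypersurfaces without a common point, of any degrees; the `f i` are powers
of their equations). Suppose that `Y - D`, or `Y - E` for some `E` contained in `D`, is of log general
type; for instance `Y` itself may be of general type, or `Y` is the plane and `D` consists of a smooth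
conic and two lines in general position.

The theorem: there is a number `m` such that a projective variety `X` with a surjective morphism
`X → Y` (the fibres are any varieties, of any dimension) is neither special nor Brody-special, if the
morphism is ramified to order at least `m` over `D`: for each arc of `X` the contact orders with the
divisors `D_i` are all zero, or one of them is at least `m`. So Campana's conjecture (Q1) holds for
these `X`. Moreover there is a proper closed subset of `Y`, independent of `X`, such that for all
closed `X` with a morphism to `Y` of this kind each entire curve in `X` is contained in a fibre, or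
its image in `Y` is contained in the closed subset.

The language of the starting repository is used. `X` is a closed subset of `ℙᴺ' × ℙᴺ` (`BiSet`), the
morphism is the second projection, `L` is the function field of `X` and `(b, c)` the generic point.
`Special` (with empty boundary) is the definition of the starting file
`Pool.Agent.W602.GT.SpecDefs` (no Bogomolov sheaves of positive degree), `LogGeneralType` is that of
`Pool.Agent.W602.GT.Defs`.

Proof. (1) By `Pool.Agent.Q72.NW` (a truncated second main theorem for pairs of log general type of
this kind: `ε T(r) ≤ N¹(r)` for all entire curves in `Y` outside of a closed subset) an entire curve in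
`Y` which meets `D` only with a high multiplicity is constant or contained in the closed subset.
(2) If the logarithmic forms of `Y - E` are multiplied by a function which vanishes on `D` relative
to them (`Pool.Agent.Y220.OG.LgtA`), then their pull-backs to `X` are regular at all divisors of all
models of `X`, as powers of a `d`-form times functions (`Pool.Agent.Q72.FB.Bog`); this is a
Bogomolov sheaf of degree `d`.
-/

set_option autoImplicit false

open FF MvPolynomial Pool.Agent.W602.GT Pool.Agent.W602.Cov.R

namespace Pool.Agent.Results.MP_1209e6_ag.FibrationsOverLogGeneralType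

/-- The points `x` of affine space which lie on the cone of the projective variety with generic
point `a`: all forms which vanish at `a` vanish at `x`. -/
def OnCone {N : ℕ} {K : Type} [Field K] [Algebra ℂ K] (a : Fin (N + 1) → K)
    (x : Fin (N + 1) → ℂ) : Prop :=
  ∀ (H : MvPolynomial (Fin (N + 1)) ℂ) (D : ℕ), H.IsHomogeneous D → aeval a H = 0 → eval x H = 0

/-- The projection of `X` to `ℙᴺ` is ramified to order at least `m` over the hypersurfaces
`f i = 0`: for each point `(u, v)` of `X` over a field with a discrete valuation, not over the
hypersurfaces, the orders of the `f i (v)` (the contact orders, up to a common summand) are all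
equal, or two of them differ by at least `m`. -/
def RamifiedOver {N' N n : ℕ} (X : BiSet N' N) (f : Fin (n + 1) → MvPolynomial (Fin (N + 1)) ℂ)
    (m : ℕ) : Prop :=
  ∀ (M : Type) [Field M] [Algebra ℂ M] (u : Fin (N' + 1) → M) (v : Fin (N + 1) → M), X.Mem u v →
    (∀ i, aeval v (f i) ≠ 0) → ∀ P : Place ℂ M,
    (∃ i j, P.ord (aeval v (f i)) ≠ P.ord (aeval v (f j))) →
    ∃ i j, P.ord (aeval v (f i)) + m ≤ P.ord (aeval v (f j))

/-- A holomorphic map from the complex plane to `X`, given by entire functions `u`, `v` as
homogeneous coordinates. -/
def HolomorphicMap {N' N : ℕ} (X : BiSet N' N) (u : ℂ → Fin (N' + 1) → ℂ)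
    (v : ℂ → Fin (N + 1) → ℂ) : Prop :=
  (∀ j, Differentiable ℂ fun z => u z j) ∧ (∀ j, Differentiable ℂ fun z => v z j) ∧
    ∀ z, X.Mem (u z) (v z)

/-- `X` is Brody-special: there is a holomorphic map from the complex plane to `X` whose image is
Zariski dense in `X`. -/
def BrodySpecial {N' N : ℕ} (X : BiSet N' N) : Prop :=
  ∃ (u : ℂ → Fin (N' + 1) → ℂ) (v : ℂ → Fin (N + 1) → ℂ), HolomorphicMap X u v ∧
    ∀ (G : BiPoly N' N) (D D' : ℕ), BiHom G D D' → (∀ z, eval (Sum.elim (u z) (v z)) G = 0) →
      ∀ u' v', X.Mem u' v' → eval (Sum.elim u' v') G = 0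

/-- Let `Y` be a projective variety in `ℙᴺ` of dimension `d > 0`, with function field `K` and generic
point `a`; let `f i`, `i = 0, ..., n`, be forms of degree `e > 0` which do not vanish on `Y` and have
no common zero on `Y`. Suppose that `K` is of log general type, with a boundary `Bd` which consists
of places over the zeros of the `f i` (`hBd`). Then there are a number `m` and a form `B` which does
not vanish on `Y`, such that the following holds for all closed subsets `X` of `ℙᴺ' × ℙᴺ` whose
projection to `ℙᴺ` is ramified to order at least `m` over the hypersurfaces `f i = 0`.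

(1) If the projection of `X` is contained in `Y`, then for each holomorphic map `(u, v)` from the
complex plane to `X` the projection `v` to `Y` is constant or contained in `B = 0`.

(2) If `X` is irreducible with function field `L`, of dimension `w`, and the projection of `X` is
`Y` (by `σ` the field `K` is contained in `L`, and `c` and `σ (a)` are the same point of `ℙᴺ`), then
`X` is neither special nor Brody-special. -/
theorem result (N n e d : ℕ) (he : 0 < e) (hd : 0 < d) (K : Type) [Field K] [Algebra ℂ K]
    (a : Fin (N + 1) → K)
    (hK : IntermediateField.adjoin ℂ {g : K | ∃ i j, a j ≠ 0 ∧ g = a i / a j} = ⊤)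
    (f : Fin (n + 1) → MvPolynomial (Fin (N + 1)) ℂ) (hf : ∀ i, (f i).IsHomogeneous e)
    (hf0 : ∀ i, aeval a (f i) ≠ 0) (hcz : ∀ x, OnCone a x → x ≠ 0 → ∃ i, eval x (f i) ≠ 0)
    (Bd : Place ℂ K → Prop)
    (hBd : ∀ P, Bd P → ∃ i, P.ord (aeval a (f i)) ≠ P.ord (aeval a (f 0)))
    (hlgt : LogGeneralType ℂ K d Bd) :
    ∃ (m : ℕ) (B : MvPolynomial (Fin (N + 1)) ℂ) (E : ℕ), B.IsHomogeneous E ∧ aeval a B ≠ 0 ∧
      ∀ (N' : ℕ) (X : BiSet N' N), RamifiedOver X f m →
      ((∀ u v, X.Mem u v → OnCone a v) → ∀ u v, HolomorphicMap X u v →
        (∀ z z', ∃ t : ℂ, v z' = t • v z) ∨ ∀ z, eval (v z) B = 0) ∧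
      ∀ (L : Type) [Field L] [Algebra ℂ L] (b : Fin (N' + 1) → L) (c : Fin (N + 1) → L) (w : ℕ),
        X.FunctionField L b c → Algebra.trdeg ℂ L = w →
        ∀ σ : K →ₐ[ℂ] L, (∀ i j, σ (a i) * c j = σ (a j) * c i) →
        ¬ Special ℂ L w (fun _ => False) ∧ ¬ BrodySpecial X := by
  have ha : a ≠ 0 := by
    intro h0
    apply hf0 0
    have h1 : (f 0).coeff 0 = 0 := (hf 0).coeff_eq_zero (by
      rw [map_zero]
      exact he.ne)
    rw [h0, aeval_zero, constantCoeff_eq, h1, map_zero]
  have hess : Algebra.EssFiniteType ℂ K := Pool.Agent.Q72.NA.ess_of_adjoin hK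
  obtain ⟨B, E, m1, hB, hBa, hcur⟩ := Pool.Agent.Q72.FB.curves_main K a hK f e he hf hf0
    (fun x hx => hcz x hx) Bd hBd hlgt
  have halg := Pool.Agent.Q72.NW.alg_of_nocommon hK f e he hf (hf0 0) fun x hx => hcz x hx
  obtain ⟨m2, hbog⟩ := Pool.Agent.Q72.FB.bog_main (fun i => aeval a (f i)) hd hf0
    (fun z => halg.isAlgebraic z) (Pool.Agent.Q72.NA.lgt_mono hBd hlgt)
  refine ⟨max m1 m2, B, E, hB, hBa, fun N' X hX => ⟨fun hXa u v huv => ?_, ?_⟩⟩
  · by_cases hBv : ∃ z, eval (v z) B ≠ 0
    · exact Or.inl (hcur _ (le_max_left _ _) N' X hX hXa u v huv.1 huv.2.1 huv.2.2 hBv)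
    · push Not at hBv
      exact Or.inr hBv
  · intro L _ _ b c w hL hw σ hσ
    constructor
    · intro hsp
      refine hsp d hd ?_
      let _ : Algebra K L := σ.toRingHom.toAlgebra
      have : IsScalarTower ℂ K L := IsScalarTower.of_algebraMap_eq' (σ.comp_algebraMap).symm
      have hmap : ∀ z : K, algebraMap K L z = σ z := fun z => rfl
      refine hbog L w hw fun P => ?_
      obtain ⟨t, ht, hc⟩ := Pool.Agent.Q72.FB.prop_coord hL σ hσ ha
      have hval : ∀ i, aeval c (f i) = t ^ e * σ (aeval a (f i)) := by
        intro i
        have h1 : c = fun i => t * σ (a i) := funext hc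
        rw [h1, Pool.Agent.Y192.OG.aeval_scale (hf i)]
        congr 1
        rw [← AlgHom.comp_apply, comp_aeval]
      have hne : ∀ i, σ (aeval a (f i)) ≠ 0 := fun i => (map_ne_zero σ).2 (hf0 i)
      have hord : ∀ i, P.ord (aeval c (f i)) = P.ord (t ^ e) + P.ord (σ (aeval a (f i))) := by
        intro i
        rw [hval, P.ord_mul (pow_ne_zero _ ht) (hne i)]
      by_cases hall : ∀ i, P.ord (σ (aeval a (f i))) = P.ord (σ (aeval a (f 0)))
      · exact Or.inl hall
      · right
        push Not at hall
        obtain ⟨i, hi⟩ := hall
        obtain ⟨i1, j1, h1⟩ := hX L b c hL.mem (fun i => by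
          rw [hval]
          exact mul_ne_zero (pow_ne_zero _ ht) (hne i)) P ⟨i, 0, by
            rw [hord, hord]
            intro h
            exact hi (add_left_cancel h)⟩
        refine ⟨i1, j1, ?_⟩
        rw [hord, hord] at h1
        rw [hmap, hmap]
        have h2 : (m2 : ℤ) ≤ (max m1 m2 : ℕ) := by exact_mod_cast le_max_right m1 m2
        linarith
    · rintro ⟨u, v, huv, hdense⟩
      refine Pool.Agent.Q72.FB.not_bro hL σ hσ ha hK hlgt.1 hd hB hBa
        (fun u v hu hv hmem hBv => hcur _ (le_max_left _ _) N' X hX
          (Pool.Agent.Q72.FB.in_cone hL σ hσ ha) u v hu hv hmem hBv)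
        ⟨u, v, huv.1, huv.2.1, huv.2.2, hdense⟩

end Pool.Agent.Results.MP_1209e6_ag.FibrationsOverLogGeneralType
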