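import Mathlib
import Pool.Agent.Q103.EC.Spc
import Pool.Agent.Q103.EC.Gen

/-!
# Special and Brody-special varieties which carry a map with many preperiodic points

`X` is an integral projective variety over `ℂ` (no smoothness is assumed), given by its function field
`K` and its generic point `x`: homogeneous coordinates in `K` whose ratios generate `K` (`x ≠ 0`,
`coords ℂ x = ⊤`).

`f = p / q` is a rational map of the projective line over `K` of degree `d` (a family of rational maps
over an open subset of `X`) which is not isotrivial (`Isotrivial`: conjugate over an algebraic closure of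
`K` to a map with coefficients algebraic over `ℂ`; i.e. the moduli map `X ⇢ M_d` is not constant) and
which has at least `B` preperiodic points in `P^1(K)` (`prePer`; preperiodic rational sections).

`Special ℂ K w (fun _ => False)`: `X` is special (there is no Bogomolov sheaf: a rank one sheaf of
`p`-forms, `p ≥ 1`, of Iitaka dimension `p`; prime divisors on all models). `BrodySpecial x`: some entire
curve in `X` is Zariski-dense.

`FibredOff x R g`: there is a nonconstant rational map `π : X ⇢ P^N`, given by the forms `g i` of the
same degree, such that for every meromorphic map from some `ℂ ^ n` to `X` with an image not contained in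
the proper closed subset given by the form `R` the composition with `π` is constant: all entire curves
and all meromorphic images of the spaces `ℂ ^ n` outside of this subset are in the fibres of `π`.

The last part of the theorem says that for all `d` and `B` there are such varieties of dimension
`2 d - 2`.

Proof (project GT of helper41, projects EC and KO of helper103). The map is conjugate to a map over a
subfield of `K` of positive transcendence degree, algebraic over the cross ratios of preperiodic points
(`Pool.Agent.Q103.EC.exists_sub`); by the results on maps with generically finite moduli map this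
subfield is the function field of a variety of general type, which is hyperbolic modulo a proper closed
subset.
-/

set_option autoImplicit false

namespace Pool.Agent.Results.MP_1209e6_ag.ManyPreperiodicPoints

open FF Polynomial
open Pool.Agent.W602.GT
open Pool.Agent.Q103.EC (Isotrivial prePer)
open Pool.Agent.Y221.BD (EntireCurve)
open Pool.Agent.Y221.PD (MeroMap)

/-- Some entire curve in the projective variety with the generic point `x` is Zariski-dense. -/
def BrodySpecial {M : ℕ} {K : Type} [Field K] [Algebra ℂ K] (x : Fin (M + 1) → K) : Prop :=
  ∃ f, EntireCurve x f ∧ ∀ G, IsForm G → (∀ t, MvPolynomial.eval (fun i => f i t) G = 0) →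
    val x G = 0

/-- The forms `g i` of the same degree give a nonconstant rational map on the projective variety with
the generic point `x`, and the composition with every meromorphic map from some `ℂ ^ n` to the variety
with an image not contained in the proper closed subset given by the form `R` is constant. -/
structure FibredOff {M N : ℕ} {K : Type} [Field K] [Algebra ℂ K] (x : Fin (M + 1) → K)
    (R : MvPolynomial (Fin (M + 1)) ℂ) (g : Fin (N + 1) → MvPolynomial (Fin (M + 1)) ℂ) :
    Prop where
  form : IsForm R
  ne : val x R ≠ 0
  hom : ∃ e : ℕ, ∀ i, (g i).IsHomogeneous e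
  dom : val x (g 0) ≠ 0
  nonconst : ∃ i, val x (g i) / val x (g 0) ∉ Set.range (algebraMap ℂ K)
  fibre : ∀ n h, MeroMap x n h → (∃ t, MvPolynomial.eval (fun i => h i t) R ≠ 0) → ∀ i j a b,
    MvPolynomial.eval (fun l => h l a) (g i) * MvPolynomial.eval (fun l => h l b) (g j) =
    MvPolynomial.eval (fun l => h l a) (g j) * MvPolynomial.eval (fun l => h l b) (g i)

/-- For every `d ≥ 2` there is `B` such that every projective variety `X` whose function field carries
a rational map of degree `d` with at least `B` preperiodic points which is not isotrivial is neither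
special nor Brody-special; all entire curves in `X` outside of a proper closed subset are in the fibres
of a nonconstant rational map. There are such `X` of dimension `2 d - 2` for all `B`. -/
theorem result (d : ℕ) (hd : 2 ≤ d) :
    (∃ B : ℕ, ∀ (K : Type) [Field K] [Algebra ℂ K] (p q : K[X]),
      IsCoprime p q → max p.natDegree q.natDegree = d → ¬ Isotrivial ℂ d p q →
      (B : ℕ∞) ≤ (prePer d p q).encard →
      (∀ w : ℕ, Algebra.trdeg ℂ K = w → ¬ Special ℂ K w (fun _ => False)) ∧
      ∀ (M : ℕ) (x : Fin (M + 1) → K), x ≠ 0 → coords ℂ x = ⊤ → ¬ BrodySpecial x ∧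
        ∃ (R : MvPolynomial (Fin (M + 1)) ℂ) (N : ℕ)
          (g : Fin (N + 1) → MvPolynomial (Fin (M + 1)) ℂ), FibredOff x R g) ∧
    ∀ n : ℕ, 3 ≤ n → ∃ (K : Type) (_ : Field K) (_ : Algebra ℂ K) (p q : K[X]),
      IsCoprime p q ∧ max p.natDegree q.natDegree = d ∧ ¬ Isotrivial ℂ d p q ∧
      (n : ℕ∞) ≤ (prePer d p q).encard ∧ Algebra.trdeg ℂ K = (2 * d - 2 : ℕ) ∧
      ∃ (M : ℕ) (x : Fin (M + 1) → K), x ≠ 0 ∧ coords ℂ x = ⊤ := by
  constructor
  · obtain ⟨B, hB⟩ := Pool.Agent.Q103.EC.spc d hd
    refine ⟨B, fun K _ _ p q hco hmax hiso hmany => ?_⟩
    obtain ⟨h1, h2⟩ := hB K p q hco hmax hiso hmany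
    refine ⟨h1, fun M x hx hgen => ?_⟩
    obtain ⟨R, N, e, g, hR, hRx, hg, hg0, hnc, hfib⟩ := h2 M x hx hgen
    refine ⟨?_, R, N, g, hR, hRx, ⟨e, hg⟩, hg0, hnc, hfib⟩
    rintro ⟨f, hf, hdense⟩
    obtain ⟨G, hG, hGx, hGf⟩ := Pool.Agent.Q103.EC.not_dense hR hRx hg hg0 hnc hfib hf
    exact hGx (hdense G hG hGf)
  · intro n hn
    obtain ⟨K, iK, iA, p, q, h, htr, hx⟩ := Pool.Agent.Q103.EC.exists_variety d hd n hn
    exact ⟨K, iK, iA, p, q, h.coprime, h.deg,
      Pool.Agent.Q103.EC.not_isotrivial h (w := 2 * d - 2) (by omega) htr, h.many, htr, hx⟩

end Pool.Agent.Results.MP_1209e6_ag.ManyPreperiodicPoints
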