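import Pool.Agent.Q64.LC.Spl

/-!
# Zariski-dense entire curves of slow growth and special varieties

Let `k` be a countable subfield of `ℂ`, for example the field of algebraic numbers. There is one
function `Ψ`, growing faster than all polynomials, with the following properties for all irreducible
projective varieties `X ⊂ ℙ ^ n` over `k` of dimension `w`, for all `n` and `w`, and also for the
complements `X - D`, where `D` is given by `Q = 0`, `Q` a form over `k` (`Q = 1` in the projective
case). Slow curves are the nonconstant entire curves in `X - D` with entire homogeneous coordinates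
`f` such that `Q (f)` is constant and `‖f z‖ ≤ C * Ψ ‖z‖` for large `z`.

1. If a surface `X - D` contains a Zariski-dense slow curve, then `X - D` is special in the sense of
Campana, `X` is covered by rational curves, and all logarithmic pluricanonical forms are zero.

2. For every `w`, if the points on the Zariski-dense slow curves form a set of Hausdorff dimension
greater than `2 w` (in the cone, of real dimension `2 w + 2`), then the conclusions of 1 hold.

3. Let the rational function `r = g1 / g0` over `k` be the quotient of two sections of a power of a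
subsheaf of rank one of a sheaf of (logarithmic) `e`-forms, `e ≥ 0`. The points on the slow curves
along which `r` is not constant form a set of Hausdorff dimension at most `2 w`; if `w = 2`, each slow
curve along which `r` is not constant lies in the Zariski closure of one polynomial curve.
-/

set_option autoImplicit false

namespace Pool.Agent.Results.MP_1209e6_ag.SlowSpecial

open MvPolynomial Pool.Agent.TH143.GT Pool.Agent.W602.GT Pool.Agent.W603.GR Pool.Agent.W603.PV
open Pool.Agent.Q64.LC
open scoped ENNReal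

/-- `X - D` is special, `X` is covered by rational curves, and there are no nonzero logarithmic
pluricanonical forms. -/
def SpecialCovered {n : ℕ} (Q : MvPolynomial (Fin (n + 1)) ℂ) (q : ℕ) (K : Type) [Field K]
    [Algebra ℂ K] (w : ℕ) (y : Fin (n + 1) → K) : Prop :=
  Special ℂ K w (OffQ Q q y) ∧ Covered K ∧
    ∀ N : ℕ, 0 < N → ∀ ω : (Fin w → Derivation ℂ K K) → K, LogSec ℂ K w N (OffQ Q q y) ω → ω = 0

theorem result (k : Subfield ℂ) [Countable k] :
    ∃ Ψ : ℝ → ℝ, SuperPoly Ψ ∧ ∀ (n : ℕ) (p : Ideal (MvPolynomial (Fin (n + 1)) ℂ))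
      (Q : MvPolynomial (Fin (n + 1)) ℂ) (q : ℕ), IsHomog p → Q.IsHomogeneous q →
      OverK k p → CoeffK k Q →
      ∀ (w : ℕ) (K : Type) [Field K] [Algebra ℂ K] (y : Fin (n + 1) → K), FunField p Q K w y →
        (w = 2 → ∀ f, Entire p Q f → GrowthLe Ψ f → ZDense p f Set.univ →
          SpecialCovered Q q K w y) ∧
        (((2 * w : ℕ) : ℝ≥0∞) < dimH (denseSlowPts p Q Ψ) → SpecialCovered Q q K w y) ∧
        (∀ (d : ℕ) (g1 g0 : MvPolynomial (Fin (n + 1)) ℂ), g1.IsHomogeneous d →
          g0.IsHomogeneous d → CoeffK k g1 → CoeffK k g0 → g0 ∉ p →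
          SheafQuot K w (OffQ Q q y) (W602.GT.val y g1 / W602.GT.val y g0) →
          dimH (ncSlowPts p Q Ψ g1 g0) ≤ ((2 * w : ℕ) : ℝ≥0∞) ∧
          (w = 2 → ∀ f, Entire p Q f → GrowthLe Ψ f → NCf g1 g0 f → InPoly p Q f)) := by
  obtain ⟨Ψ, h1, h2⟩ := uni_special k
  refine ⟨Ψ, h1, fun n p Q q hp hQ hpk hQk w K _ _ y hy => ?_⟩
  obtain ⟨h3, h4, h5⟩ := h2 n p Q q hp hQ hpk hQk w K y hy
  have h6 : ¬ NonNeg Q q w y → Covered K ∧ ∀ N : ℕ, 0 < N →
      ∀ ω : (Fin w → Derivation ℂ K K) → K, LogSec ℂ K w N (OffQ Q q y) ω → ω = 0 := by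
    intro h
    unfold NonNeg at h
    push Not at h
    exact h
  refine ⟨fun hw f hf hg hd => ⟨?_, h6 fun hnn => ?_⟩, fun hlt => ⟨?_, h6 fun hnn => ?_⟩, h4⟩
  · by_contra hns
    exact (h3 hns).2 hw f hf hg hd
  · obtain ⟨T, hT, hTG⟩ := (h5 hnn).2 hw f hf hg
    have h7 := dense_dim hy hT fun G hG hG0 => hd G hG fun z _ => hTG G hG hG0 z
    omega
  · by_contra hns
    exact absurd (h3 hns).1 (not_le.2 hlt)
  · have h7 : denseSlowPts p Q Ψ ⊆ slowPts p Q Ψ := by
      rintro _ ⟨f, hf, hg, -, z, rfl⟩
      exact ⟨f, hf, hg, z, rfl⟩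
    exact absurd ((dimH_mono h7).trans (h5 hnn).1) (not_le.2 hlt)

end Pool.Agent.Results.MP_1209e6_ag.SlowSpecial
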