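import Mathlib
import Pool.Agent.Q33.SP.Hull4

/-!
MP_1209e6_ag: entire curves which are sums of `r` powers are contained in the closures of images of
tori; varieties with such Zariski-dense entire curves are unirational and special.
-/

set_option autoImplicit false

namespace Pool.Agent.Results.MP_1209e6_ag.TorusHulls

open MvPolynomial Filter Topology FF Pool.Agent.W602.GT Pool.Agent.TH143.GT Pool.Agent.Q33.SP
open Pool.Agent.W603.GR (OffQ)

/-- Let `X` be the irreducible quasi-projective variety `F = 0`, `Q ≠ 0` given by forms of degree at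
most `D`, with the ideal `p`, the function field `K` and the generic point `y`. Let `r ≥ 1` and
`N = (number of monomials of degree D in r variables) ^ 2`.

(1) Let `f` be a nonconstant entire curve in `X` which is a sum of `r` terms given by `M`-th powers,
`M ≥ N`. Then there is a nonconstant map `Φ` from a torus to `X` with `r` monomials such that `f (z)`
is contained in the image of `Φ` for all `z` in some open set; in particular `f` is contained in the
Zariski closure of the image of `Φ`.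

(2) For each nonconstant map `Φ` from a torus to `X` with `r` monomials, and each `M > 0`, there is
such an entire curve, which is contained in the image of `Φ` and Zariski-dense in it.

(3) Therefore the following are equivalent: for each `M > 0` there is such a Zariski-dense entire
curve in `X`; there is one for some `M ≥ N`; there is a Zariski-dense map from a torus to `X` with
`r` monomials.

(4) If there is such a Zariski-dense entire curve for some `M ≥ N` then `X` is unirational and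
special in the sense of Campana, and its logarithmic Kodaira dimension is at most `0`.

(5) If `X` is projective, of positive dimension, then `X` is unirational if and only if it contains
such a Zariski-dense entire curve for some `r ≥ 1` and some `M ≥ N`, and the Kodaira dimension is
negative then. -/
theorem result {n D q : ℕ} {ι : Type} (F : ι → MvPolynomial (Fin (n + 1)) ℂ)
    (hF : ∀ i, ∃ d, d ≤ D ∧ (F i).IsHomogeneous d) (Q : MvPolynomial (Fin (n + 1)) ℂ)
    (hQ : Q.IsHomogeneous q) (hq : q ≤ D) (p : Ideal (MvPolynomial (Fin (n + 1)) ℂ)) [p.IsPrime]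
    (hp : ∀ H, H ∈ p ↔ ∀ x, OnX F Q x → eval x H = 0)
    (K : Type) [Field K] [Algebra ℂ K] (w : ℕ) (y : Fin (n + 1) → K) (hy : FunField p Q K w y) :
    (∀ r, 1 ≤ r → ∀ M, ((r + D - 1).choose D) ^ 2 ≤ M → ∀ f, EntSp r M F Q f →
      ∃ (g : ℕ) (Φ : (Fin g → ℂ) → Fin (n + 1) → ℂ), TorSp r g F Q Φ ∧
        (∃ z0 : ℂ, ∀ᶠ z in 𝓝 z0, ∃ t, (∀ a, t a ≠ 0) ∧ f z = Φ t) ∧
        ∀ G : MvPolynomial (Fin (n + 1)) ℂ, (∀ t, (∀ a, t a ≠ 0) → eval (Φ t) G = 0) →
          ∀ z, eval (f z) G = 0) ∧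
    (∀ r g (Φ : (Fin g → ℂ) → Fin (n + 1) → ℂ), TorSp r g F Q Φ → ∀ M, 0 < M →
      ∃ f, EntSp r M F Q f ∧ (∀ z, ∃ t, (∀ a, t a ≠ 0) ∧ f z = Φ t) ∧
        ∀ G : MvPolynomial (Fin (n + 1)) ℂ, (∀ z, eval (f z) G = 0) →
          ∀ t, (∀ a, t a ≠ 0) → eval (Φ t) G = 0) ∧
    (∀ r, 1 ≤ r →
      [∀ M, 0 < M → ∃ f, EntSp r M F Q f ∧ ZDense p f Set.univ,
        ∃ M, ((r + D - 1).choose D) ^ 2 ≤ M ∧ ∃ f, EntSp r M F Q f ∧ ZDense p f Set.univ,
        ∃ (g : ℕ) (Φ : (Fin g → ℂ) → Fin (n + 1) → ℂ), TorSp r g F Q Φ ∧ TorDense p Φ].TFAE) ∧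
    (∀ r, 1 ≤ r → ∀ M, ((r + D - 1).choose D) ^ 2 ≤ M → ∀ f, EntSp r M F Q f →
      ZDense p f Set.univ → Unirational y ∧ Special ℂ K w (OffQ Q q y) ∧
        ¬ KodGe ℂ K w (OffQ Q q y) 1) ∧
    (Q = 1 → 1 ≤ w →
      (Unirational y ↔ ∃ r, 1 ≤ r ∧ ∃ M, ((r + D - 1).choose D) ^ 2 ≤ M ∧
        ∃ f, EntSp r M F Q f ∧ ZDense p f Set.univ) ∧
      (Unirational y → ¬ KodGe ℂ K w (OffQ Q q y) 0)) := by
  have hcut : ∀ H ∈ p, ∀ x, OnX F Q x → eval x H = 0 := fun H hH => (hp H).1 hH
  have hFp : ∀ i, F i ∈ p := fun i => (hp _).2 fun x hx => hx.1 i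
  refine ⟨fun r hr M hM f hf => ?_, fun r g Φ h M hM => h.dense_ent hM,
    fun r hr => dense_iff hr F hF Q hQ hq p, fun r hr M hM f hf hd => ⟨?_, ?_⟩, ?_⟩
  · obtain ⟨g, Φ, h1, z0, h2⟩ := hull_main hr F hF Q hQ hq hM f hf
    refine ⟨g, Φ, h1, ⟨z0, h2⟩, fun G hG z => ?_⟩
    have h3 : ∀ᶠ z in 𝓝 z0, eval (f z) G = 0 := by
      filter_upwards [h2] with z hz
      obtain ⟨t, ht, hzt⟩ := hz
      rw [hzt]
      exact hG t ht
    have h4 : (fun z => eval (f z) G) = fun _ => 0 :=
      ((diff_eval hf.diff G).differentiableOn.analyticOnNhd isOpen_univ).eq_of_eventuallyEq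
        ((differentiable_const (0 : ℂ)).differentiableOn.analyticOnNhd isOpen_univ) h3
    exact congrFun h4 z
  · have hi := (dense_iff hr F hF Q hQ hq p).out 1 2
    obtain ⟨g, Φ, h1, h2⟩ := hi.1 ⟨M, hM, f, hf, hd⟩
    exact unirational_of_tor hcut hy h1 h2
  · exact special_of_dense hr F hF Q hQ hq hcut hy hM hf hd
  · rintro rfl hw
    have hiff : Unirational y ↔ ∃ r, 1 ≤ r ∧ ∃ M, ((r + D - 1).choose D) ^ 2 ≤ M ∧
        ∃ f, EntSp r M F 1 f ∧ ZDense p f Set.univ := by
      constructor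
      · intro h
        obtain ⟨r, hr, g, Φ, h1, h2⟩ := tor_of_unirational (fun i => by
          obtain ⟨d, -, hd⟩ := hF i
          exact ⟨d, hd⟩) hFp hy hw h
        have hi := (dense_iff hr F hF 1 hQ hq p).out 2 1
        exact ⟨r, hr, hi.1 ⟨g, Φ, h1, h2⟩⟩
      · rintro ⟨r, hr, M, hM, f, hf, hd⟩
        have hi := (dense_iff hr F hF 1 hQ hq p).out 1 2
        obtain ⟨g, Φ, h1, h2⟩ := hi.1 ⟨M, hM, f, hf, hd⟩
        exact unirational_of_tor hcut hy h1 h2
    refine ⟨hiff, fun h => ?_⟩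
    obtain rfl : q = 0 := hQ.inj_right (isHomogeneous_one _ _) one_ne_zero
    obtain ⟨r, hr, M, hM, f, hf, hd⟩ := hiff.1 h
    intro hk
    obtain ⟨G, h1, h2, h3⟩ := excep_nr (r := r) (D := D) hcut hy (not_uniruled_of_kod hy hk)
    have h4 := tfae (r := r) F hF 1 hQ hq hM
      (lt_of_lt_of_le (pow_pos (Nat.choose_pos (by omega)) 2) hM) G
    have h5 := h4.out 4 1
    exact h2 (hd G h1 fun z _ => h5.1 h3 f hf z)

end Pool.Agent.Results.MP_1209e6_ag.TorusHulls
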